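import Pool.Agent.helper12.SP.Defs

/-!
# Module A: polynomial bounds and the basic closure properties of `Cmp`
-/

set_option autoImplicit false

namespace Pool.Agent.helper12.SP

section Loops

/-- `inc` with a prescribed final state -/
theorem Ex.inc' {B r : ℕ} {σ σ' : ℕ → ℕ} (h : σ r + 1 ≤ B)
    (h' : Function.update σ r (σ r + 1) = σ') : Ex B (.inc r) σ σ' := by
  subst h'
  exact Ex.inc r σ h

theorem Ex.congr {B : ℕ} {P : Stmt} {σ σ' τ : ℕ → ℕ} (h : Ex B P σ σ') (h' : σ' = τ) :
    Ex B P σ τ := h' ▸ h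

theorem Ex.mono {B B' : ℕ} {P : Stmt} {σ σ' : ℕ → ℕ} (hB : B ≤ B') (h : Ex B P σ σ') :
    Ex B' P σ σ' := by
  induction h with
  | skip σ => exact Ex.skip σ
  | inc r σ h => exact Ex.inc r σ (h.trans hB)
  | seq _ _ h1 h2 => exact Ex.seq h1 h2
  | loop_zero r a σ h => exact Ex.loop_zero r a σ h
  | loop_succ h _ _ h1 h2 => exact Ex.loop_succ h h1 h2

/-- a loop along a given sequence of states -/
theorem Ex.loop_iter {B r : ℕ} {P : Stmt} (m : ℕ) (σ : ℕ → ℕ → ℕ) (h : ∀ k ≤ m, σ k r = m - k)
    (hs : ∀ k < m, Ex B P (Function.update (σ k) r (m - k - 1)) (σ (k + 1))) :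
    Ex B (.loop r P) (σ 0) (σ m) := by
  have key : ∀ j ≤ m, Ex B (.loop r P) (σ (m - j)) (σ m) := by
    intro j
    induction j with
    | zero =>
      intro _
      have := h m le_rfl
      exact Ex.loop_zero r P _ (by simpa using this)
    | succ j ih =>
      intro hj
      have h1 := h (m - (j + 1)) (by omega)
      have h2 := hs (m - (j + 1)) (by omega)
      have e1 : m - (m - (j + 1)) = j + 1 := by omega
      have e2 : m - (m - (j + 1)) - 1 = j := by omega
      have e3 : m - (j + 1) + 1 = m - j := by omega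
      rw [e1] at h1
      rw [e2, e3] at h2
      exact Ex.loop_succ h1 h2 (ih (by omega))
  simpa using key m le_rfl

theorem Ex.clear (B r : ℕ) (σ : ℕ → ℕ) : Ex B (.loop r .skip) σ (Function.update σ r 0) := by
  have := Ex.loop_iter (B := B) (r := r) (P := .skip) (σ r)
    (fun k => Function.update σ r (σ r - k)) (fun k _ => by simp) (fun k hk => by
      have : Function.update (Function.update σ r (σ r - k)) r (σ r - k - 1) =
        Function.update σ r (σ r - (k + 1)) := by
        rw [Function.update_idem]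
        congr 1
      rw [this]
      exact Ex.skip _)
  simpa using this

theorem Ex.move {B r o : ℕ} {σ : ℕ → ℕ} (hr : r ≠ o) (h : σ o + σ r ≤ B) :
    Ex B (.loop r (.inc o)) σ (Function.update (Function.update σ r 0) o (σ o + σ r)) := by
  have := Ex.loop_iter (B := B) (r := r) (P := .inc o) (σ r)
    (fun k => Function.update (Function.update σ r (σ r - k)) o (σ o + k))
    (fun k _ => by simp [Function.update_apply, hr]) (fun k hk => by
      refine Ex.inc' ?_ ?_
      · simp [Function.update_apply, hr.symm]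
        omega
      · funext x
        simp only [Function.update_apply]
        split_ifs <;> first | omega | simp_all)
  refine Ex.congr (σ := σ) ?_ rfl
  convert this using 1
  · funext x
    simp only [Function.update_apply]
    split_ifs <;> first | omega | simp_all
  · funext x
    simp only [Function.update_apply]
    split_ifs <;> first | omega | simp_all

end Loops

/-! ### Polynomial bounds -/

section A

variable {α β γ : Type} {bd bd' f g : α → ℕ}

theorem Pb.const (k : ℕ) : Pb bd (fun _ => k) := by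
  refine ⟨k + 1, fun a => ?_⟩
  calc k ≤ k + 1 + bd a := by omega
    _ = (k + 1 + bd a) ^ 1 := (pow_one _).symm
    _ ≤ (k + 1 + bd a) ^ (k + 1) := Nat.pow_le_pow_right (by omega) (by omega)

theorem Pb.self : Pb bd bd := ⟨1, fun a => by simp⟩

theorem Pb.of_le (h : ∀ a, f a ≤ g a) (hg : Pb bd g) : Pb bd f := by
  obtain ⟨C, hC⟩ := hg
  exact ⟨C, fun a => (h a).trans (hC a)⟩

private theorem pow_bd {C C' x : ℕ} (h : C < C') : (C + x) ^ C ≤ (C' + x) ^ (C' - 1) :=
  (Nat.pow_le_pow_left (by omega) C).trans (Nat.pow_le_pow_right (by omega) (by omega))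

theorem Pb.add (hf : Pb bd f) (hg : Pb bd g) : Pb bd (fun a => f a + g a) := by
  obtain ⟨C, hC⟩ := hf
  obtain ⟨D, hD⟩ := hg
  refine ⟨C + D + 2, fun a => ?_⟩
  have h1 : f a ≤ (C + D + 2 + bd a) ^ (C + D + 1) :=
    (hC a).trans (pow_bd (C' := C + D + 2) (by omega))
  have h2 : g a ≤ (C + D + 2 + bd a) ^ (C + D + 1) :=
    (hD a).trans (pow_bd (C' := C + D + 2) (by omega))
  have h3 : (C + D + 2 + bd a) ^ (C + D + 2) =
      (C + D + 2 + bd a) ^ (C + D + 1) * (C + D + 2 + bd a) := by
    rw [← pow_succ]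
  rw [h3]
  have h4 : 2 ≤ C + D + 2 + bd a := by omega
  nlinarith [Nat.mul_le_mul_left ((C + D + 2 + bd a) ^ (C + D + 1)) h4]

theorem Pb.mul (hf : Pb bd f) (hg : Pb bd g) : Pb bd (fun a => f a * g a) := by
  obtain ⟨C, hC⟩ := hf
  obtain ⟨D, hD⟩ := hg
  refine ⟨C + D + 1, fun a => ?_⟩
  have h1 : f a ≤ (C + D + 1 + bd a) ^ C := (hC a).trans (Nat.pow_le_pow_left (by omega) _)
  have h2 : g a ≤ (C + D + 1 + bd a) ^ D := (hD a).trans (Nat.pow_le_pow_left (by omega) _)
  calc f a * g a ≤ (C + D + 1 + bd a) ^ C * (C + D + 1 + bd a) ^ D := Nat.mul_le_mul h1 h2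
    _ = (C + D + 1 + bd a) ^ (C + D) := (pow_add _ _ _).symm
    _ ≤ _ := Nat.pow_le_pow_right (by omega) (by omega)

theorem Pb.pow (hf : Pb bd f) (k : ℕ) : Pb bd (fun a => f a ^ k) := by
  induction k with
  | zero => simpa using Pb.const (bd := bd) 1
  | succ k ih => simpa only [pow_succ] using ih.mul hf

theorem Pb.trans (h : Pb bd bd') (hf : Pb bd' f) : Pb bd f := by
  obtain ⟨D, hD⟩ := hf
  exact Pb.of_le hD (((Pb.const D).add h).pow D)

variable [Ctx α] [Ctx β] [Ctx γ]

/-- `Cmp` with the bound as a separate function -/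
theorem Cmp.of {K : α → ℕ} (hK : Pb bd K) (hf : Pb bd f)
    (H : ∀ (loc : ℕ → ℕ) (o s : ℕ), o < s → (∀ i < Ctx.dim α, loc i < s ∧ loc i ≠ o) →
      ∃ P : Stmt, ∀ (a : α) (σ : ℕ → ℕ) (B : ℕ), (∀ i < Ctx.dim α, σ (loc i) = Ctx.reg a i) →
        σ o = 0 → (∀ r, s ≤ r → σ r = 0) → K a ≤ B →
        Ex B P σ (Function.update σ o (f a))) : Cmp bd f := by
  obtain ⟨C, hC⟩ := hK.add hf
  refine ⟨C, fun a => ?_, fun loc o s ho hl => ?_⟩
  · have := hC a
    simp only at this
    omega
  · obtain ⟨P, hP⟩ := H loc o s ho hl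
    refine ⟨P, fun a σ B h1 h2 h3 h4 => hP a σ B h1 h2 h3 ?_⟩
    have := hC a
    simp only at this
    omega

theorem Cmp.out (hf : Cmp bd f) : ∃ K : α → ℕ, Pb bd K ∧ (∀ a, f a ≤ K a) ∧
    ∀ (loc : ℕ → ℕ) (o s : ℕ), o < s → (∀ i < Ctx.dim α, loc i < s ∧ loc i ≠ o) →
      ∃ P : Stmt, ∀ (a : α) (σ : ℕ → ℕ) (B : ℕ), (∀ i < Ctx.dim α, σ (loc i) = Ctx.reg a i) →
        σ o = 0 → (∀ r, s ≤ r → σ r = 0) → K a ≤ B →
        Ex B P σ (Function.update σ o (f a)) := by
  obtain ⟨C, h1, h2⟩ := hf
  exact ⟨fun a => (C + bd a) ^ C, ⟨C, fun a => le_rfl⟩, h1, h2⟩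

theorem Cmp.pb (hf : Cmp bd f) : Pb bd f := by
  obtain ⟨C, h, _⟩ := hf
  exact ⟨C, h⟩

theorem Cmp.mono (hf : Cmp bd f) (h : Pb bd' bd) : Cmp bd' f := by
  obtain ⟨K, hK, hfK, H⟩ := hf.out
  exact Cmp.of (h.trans hK) ((h.trans hK).of_le hfK) H

theorem Cmp.zero : Cmp bd (fun _ => 0) := by
  refine Cmp.of (K := fun _ => 0) (Pb.const 0) (Pb.const 0) fun loc o s _ _ => ⟨.skip, ?_⟩
  intro a σ B _ h _ _
  have : Function.update σ o 0 = σ := by
    rw [← h]
    exact Function.update_eq_self o σ
  rw [this]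
  exact Ex.skip σ

theorem Cmp.succ (hf : Cmp bd f) : Cmp bd (fun a => f a + 1) := by
  obtain ⟨K, hK, hfK, H⟩ := hf.out
  refine Cmp.of (K := fun a => K a + 1) (hK.add (Pb.const 1)) (hf.pb.add (Pb.const 1))
    fun loc o s ho hl => ?_
  obtain ⟨P, hP⟩ := H loc o s ho hl
  refine ⟨.seq P (.inc o), fun a σ B h1 h2 h3 h4 => ?_⟩
  have h4' : K a + 1 ≤ B := h4
  refine Ex.seq (hP a σ B h1 h2 h3 (by omega)) (Ex.inc' ?_ ?_)
  · have := hfK a
    simp only [Function.update_self]
    omega
  · simp

theorem Cmp.var {bd : ℕ → ℕ} (h : Pb bd (fun a => a)) : Cmp bd (fun a => a) := by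
  refine Cmp.of (K := fun a => a) h h fun loc o s ho hl => ?_
  have hl0 := hl 0 (by show 0 < 1; omega)
  refine ⟨.seq (.loop (loc 0) (.seq (.inc o) (.inc s))) (.loop s (.inc (loc 0))), ?_⟩
  intro a σ B h1 h2 h3 h4
  have h1' : σ (loc 0) = a := h1 0 (by show 0 < 1; omega)
  have h4' : a ≤ B := h4
  have h3' : σ s = 0 := h3 s le_rfl
  obtain ⟨hls, hlo⟩ := hl0
  generalize loc 0 = l at hls hlo h1' ⊢
  have step1 : Ex B (.loop l (.seq (.inc o) (.inc s))) σ
      (Function.update (Function.update (Function.update σ l 0) o a) s a) := by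
    have := Ex.loop_iter (B := B) (r := l) (P := .seq (.inc o) (.inc s)) a
      (fun k => Function.update (Function.update (Function.update σ l (a - k)) o k) s k)
      (fun k _ => by
        simp only [Function.update_apply]
        split_ifs <;> omega)
      (fun k hk => by
        refine Ex.seq (Ex.inc' ?_ rfl) (Ex.inc' ?_ ?_)
        · simp only [Function.update_apply]
          split_ifs <;> omega
        · simp only [Function.update_apply]
          split_ifs <;> omega
        · funext x
          simp only [Function.update_apply]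
          split_ifs <;> first | omega | simp_all)
    convert this using 1
    · funext x
      simp only [Function.update_apply]
      split_ifs <;> first | omega | simp_all
    · funext x
      simp only [Function.update_apply]
      split_ifs <;> first | omega | simp_all
  refine Ex.seq step1 (Ex.congr (Ex.move (by omega) ?_) ?_)
  · simp only [Function.update_apply]
    split_ifs <;> omega
  · funext x
    simp only [Function.update_apply]
    split_ifs <;> first | omega | simp_all

/-- change of context: the registers of `φ x` are among those of `x` -/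
theorem Cmp.reindex (hf : Cmp bd f) {bd₂ : γ → ℕ} (φ : γ → α)
    (hφ : ∀ i < Ctx.dim α, ∃ j < Ctx.dim γ, ∀ x : γ, Ctx.reg (φ x) i = Ctx.reg x j)
    (hb : Pb bd₂ (fun x => bd (φ x))) : Cmp bd₂ (fun x => f (φ x)) := by
  classical
  obtain ⟨C, hC, H⟩ := hf
  have hK : Pb bd₂ (fun x => (C + bd (φ x)) ^ C) := ((Pb.const C).add hb).pow C
  refine Cmp.of hK (hK.of_le fun x => hC (φ x)) fun loc o s ho hl => ?_
  choose! j hj hreg using hφ
  obtain ⟨P, hP⟩ := H (fun i => loc (j i)) o s ho fun i hi => hl _ (hj i hi)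
  refine ⟨P, fun a σ B h1 h2 h3 h4 => hP (φ a) σ B ?_ h2 h3 h4⟩
  intro i hi
  rw [h1 _ (hj i hi), hreg i hi a]

/-- primitive recursion with polynomially bounded values -/
theorem Cmp.natRec {m : α → ℕ} {h : α × ℕ × ℕ → ℕ} (hg : Cmp bd g) (hm : Cmp bd m)
    (hh : Cmp (fun x : α × ℕ × ℕ => bd x.1 + x.2.1 + x.2.2) h)
    (hb : ∃ C : ℕ, ∀ a, ∀ y ≤ m a,
      (Nat.rec (motive := fun _ => ℕ) (g a) (fun y ih => h (a, y, ih)) y : ℕ) ≤ (C + bd a) ^ C) :
    Cmp bd (fun a => Nat.rec (motive := fun _ => ℕ) (g a) (fun y ih => h (a, y, ih)) (m a)) := by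
  obtain ⟨Cb, hCb⟩ := hb
  obtain ⟨Kg, hKg, hgK, Hg⟩ := hg.out
  obtain ⟨Km, hKm, hmK, Hm⟩ := hm.out
  obtain ⟨Ch, hCh, Hh⟩ := hh
  have hR : Pb bd (fun a => (Cb + bd a) ^ Cb) := ⟨Cb, fun a => le_rfl⟩
  have hRes : Pb bd (fun a => Nat.rec (motive := fun _ => ℕ) (g a)
      (fun y ih => h (a, y, ih)) (m a)) := hR.of_le fun a => hCb a (m a) le_rfl
  refine Cmp.of (K := fun a => Kg a + Km a + (Cb + bd a) ^ Cb +
    (Ch + (bd a + Km a + (Cb + bd a) ^ Cb)) ^ Ch)
    (((hKg.add hKm).add hR).add (((Pb.const Ch).add ((Pb.self.add hKm).add hR)).pow Ch)) hRes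
    fun loc o s ho hl => ?_
  obtain ⟨Pg, hPg⟩ := Hg loc (s + 1) (s + 4) (by omega) fun i hi => by
    have := hl i hi; omega
  obtain ⟨Pm, hPm⟩ := Hm loc (s + 2) (s + 4) (by omega) fun i hi => by
    have := hl i hi; omega
  obtain ⟨Ph, hPh⟩ := Hh (fun i => if i < Ctx.dim α then loc i else
    if i = Ctx.dim α then s else s + 1) (s + 3) (s + 4) (by omega) fun i hi => by
      by_cases hi' : i < Ctx.dim α
      · have := hl i hi'
        simp only [if_pos hi']
        omega
      · simp only [if_neg hi']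
        split_ifs <;> omega
  refine ⟨.seq Pg (.seq Pm (.seq (.loop (s + 2) (.seq Ph (.seq (.loop (s + 1) .skip)
    (.seq (.loop (s + 3) (.inc (s + 1))) (.inc s))))) (.seq (.loop (s + 1) (.inc o))
      (.loop s .skip)))), ?_⟩
  intro a σ B h1 h2 h3 h4
  have hB : Kg a + Km a + (Cb + bd a) ^ Cb +
    (Ch + (bd a + Km a + (Cb + bd a) ^ Cb)) ^ Ch ≤ B := h4
  set R : ℕ → ℕ := fun y => Nat.rec (motive := fun _ => ℕ) (g a) (fun y ih => h (a, y, ih)) y
    with hRdef
  have hR0 : R 0 = g a := rfl
  have hRs : ∀ k, R (k + 1) = h (a, k, R k) := fun k => rfl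
  have hRb : ∀ k ≤ m a, R k ≤ (Cb + bd a) ^ Cb := fun k hk => hCb a k hk
  have hmB : m a ≤ Km a := hmK a
  have z0 : σ s = 0 := h3 s le_rfl
  have z1 : σ (s + 1) = 0 := h3 _ (by omega)
  have z2 : σ (s + 2) = 0 := h3 _ (by omega)
  have z3 : σ (s + 3) = 0 := h3 _ (by omega)
  have E1 : Ex B Pg σ (Function.update σ (s + 1) (R 0)) :=
    hPg a σ B h1 z1 (fun r hr => h3 r (by omega)) (by omega)
  have E2 : Ex B Pm (Function.update σ (s + 1) (R 0))
      (Function.update (Function.update σ (s + 1) (R 0)) (s + 2) (m a)) := by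
    refine hPm a _ B (fun i hi => ?_) ?_ (fun r hr => ?_) (by omega)
    · have := hl i hi
      rw [Function.update_of_ne (by omega)]
      exact h1 i hi
    · rw [Function.update_of_ne (by omega)]
      exact z2
    · rw [Function.update_of_ne (by omega)]
      exact h3 r (by omega)
  set T : ℕ → ℕ → ℕ := fun k => Function.update (Function.update (Function.update σ s k) (s + 1)
    (R k)) (s + 2) (m a - k) with hT
  have E3 : Ex B (.loop (s + 2) (.seq Ph (.seq (.loop (s + 1) .skip)
    (.seq (.loop (s + 3) (.inc (s + 1))) (.inc s))))) (T 0) (T (m a)) := by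
    refine Ex.loop_iter (m a) T (fun k _ => by simp [hT]) fun k hk => ?_
    have hRk := hRb k (by omega)
    have hRk1 := hRb (k + 1) (by omega)
    have e1 := hPh (a, k, R k) (Function.update (T k) (s + 2) (m a - k - 1)) B ?_ ?_ ?_ ?_
    · refine Ex.seq e1 (Ex.seq (Ex.clear B _ _) (Ex.seq (Ex.move (by omega) ?_) (Ex.inc' ?_ ?_)))
      · rw [← hRs k]
        simp only [Function.update_apply, hT]
        split_ifs <;> omega
      · simp only [Function.update_apply, hT]
        split_ifs <;> omega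
      · rw [← hRs k]
        funext x
        simp only [Function.update_apply, hT]
        split_ifs <;> first | omega | simp_all
    · intro i hi
      have hi2 : i < Ctx.dim α + (1 + 1) := hi
      show (Function.update (T k) (s + 2) (m a - k - 1)) _ = (if i < Ctx.dim α then Ctx.reg a i
        else (if i - Ctx.dim α < 1 then k else R k))
      by_cases hi' : i < Ctx.dim α
      · have hli := hl i hi'
        have h1i := h1 i hi'
        simp only [if_pos hi', Function.update_apply, hT]
        split_ifs <;> first | omega | simp_all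
      · simp only [if_neg hi']
        by_cases hi3 : i = Ctx.dim α
        · have : i - Ctx.dim α < 1 := by omega
          simp only [if_pos hi3, if_pos this, Function.update_apply, hT]
          split_ifs <;> omega
        · have : ¬ (i - Ctx.dim α < 1) := by omega
          simp only [if_neg hi3, if_neg this, Function.update_apply, hT]
          split_ifs <;> omega
    · simp only [Function.update_apply, hT]
      split_ifs <;> omega
    · intro r hr
      have := h3 r (by omega)
      simp only [Function.update_apply, hT]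
      split_ifs <;> omega
    · have : (Ch + (bd a + k + R k)) ^ Ch ≤ (Ch + (bd a + Km a + (Cb + bd a) ^ Cb)) ^ Ch :=
        Nat.pow_le_pow_left (by omega) _
      show (Ch + (bd a + k + R k)) ^ Ch ≤ B
      omega
  have hT0 : Function.update (Function.update σ (s + 1) (R 0)) (s + 2) (m a) = T 0 := by
    funext x
    simp only [Function.update_apply, hT]
    split_ifs <;> first | omega | simp_all
  have hRm := hRb (m a) le_rfl
  refine Ex.seq E1 (Ex.seq (Ex.congr E2 hT0) (Ex.seq E3 (Ex.seq (Ex.move (by omega) ?_)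
    (Ex.congr (Ex.clear B _ _) ?_))))
  · simp only [Function.update_apply, hT]
    split_ifs <;> omega
  · funext x
    show _ = Function.update σ o (R (m a)) x
    simp only [Function.update_apply, hT]
    split_ifs <;> first | omega | simp_all

end A

end Pool.Agent.helper12.SP
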